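import Mathlib

/-!
# Total search problems in communication complexity (TFNP^cc) and their Turing reductions
-/

namespace Pool.Agent.H88.CC

/-- Inputs of `n` bits. -/
abbrev Str (n : ℕ) := Fin n → Bool

/-- `(log₂ n)^k + k`. -/
def pl (k n : ℕ) : ℕ := (Nat.log 2 n) ^ k + k

/-- Deterministic two-party protocols: Alice holds `x : X`, Bob holds `y : Y`. -/
inductive Protocol (X Y O : Type) : Type
  | leaf (o : O) : Protocol X Y O
  | alice (f : X → Bool) (next : Bool → Protocol X Y O) : Protocol X Y O
  | bob (f : Y → Bool) (next : Bool → Protocol X Y O) : Protocol X Y O

namespace Protocol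

variable {X Y O : Type}

/-- The output of a protocol. -/
def run : Protocol X Y O → X → Y → O
  | leaf o, _, _ => o
  | alice f next, x, y => (next (f x)).run x y
  | bob f next, x, y => (next (f y)).run x y

/-- The number of bits exchanged in the worst case. -/
def cost : Protocol X Y O → ℕ
  | leaf _ => 0
  | alice _ next => 1 + max (next false).cost (next true).cost
  | bob _ next => 1 + max (next false).cost (next true).cost

end Protocol

/-- A total two-party search problem whose solutions are short and can be verified with
polylogarithmic communication. -/
structure Problem where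
  /-- exponent of the polylogarithmic bounds -/
  k : ℕ
  /-- number of possible solutions for inputs of `n` bits -/
  sol : ℕ → ℕ
  /-- `rel n x y z`: `z` is a solution of `(x, y)` -/
  rel : (n : ℕ) → Str n → Str n → Fin (sol n) → Prop
  total : ∀ n x y, ∃ z, rel n x y z
  sol_le : ∀ n, sol n ≤ 2 ^ pl k n
  verifiable : ∀ n z, ∃ π : Protocol (Str n) (Str n) Bool,
    π.cost ≤ pl k n ∧ ∀ x y, π.run x y = true ↔ rel n x y z

/-- Deterministic Turing reductions to `T`: protocols which may also query `T` at pairs
computed by the two parties without communication; any solution may be the answer. -/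
inductive Reduction (T : Problem) (X Y O : Type) : Type
  | leaf (o : O) : Reduction T X Y O
  | alice (f : X → Bool) (next : Bool → Reduction T X Y O) : Reduction T X Y O
  | bob (f : Y → Bool) (next : Bool → Reduction T X Y O) : Reduction T X Y O
  | query (m : ℕ) (f : X → Str m) (g : Y → Str m) (next : Fin (T.sol m) → Reduction T X Y O) :
      Reduction T X Y O

namespace Reduction

variable {T : Problem} {X Y O : Type}

/-- `o` is a possible output on `(x, y)`. -/
def Out : Reduction T X Y O → X → Y → O → Prop
  | leaf o, _, _, o' => o' = o
  | alice f next, x, y, o' => (next (f x)).Out x y o'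
  | bob f next, x, y, o' => (next (f y)).Out x y o'
  | query m f g next, x, y, o' => ∃ z, T.rel m (f x) (g y) z ∧ (next z).Out x y o'

/-- Cost: one for each bit exchanged, `1 + log₂ m` for a query to `T` with inputs of `m` bits. -/
def cost : Reduction T X Y O → ℕ
  | leaf _ => 0
  | alice _ next => 1 + max (next false).cost (next true).cost
  | bob _ next => 1 + max (next false).cost (next true).cost
  | query m _ _ next => 1 + Nat.log 2 m + Finset.univ.sup (fun z => (next z).cost)

/-- Every possible output is a solution. -/
def Solves (t : Reduction T X Y O) (R : X → Y → O → Prop) : Prop :=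
  ∀ x y o, t.Out x y o → R x y o

end Reduction

/-- `S` is Turing reducible to `T` with polylogarithmic cost. -/
def TuringReduces (S T : Problem) : Prop :=
  ∃ k, ∀ n, ∃ t : Reduction T (Str n) (Str n) (Fin (S.sol n)),
    t.Solves (S.rel n) ∧ t.cost ≤ pl k n

end Pool.Agent.H88.CC
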