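import Pool.Agent.H88.CC.Main

namespace Pool.Agent.H88.CC

open Classical

theorem two_mul_add_le_pow (m : ℕ) : 2 * (m + 4) + 4 ≤ 2 ^ (m + 4) := by
  induction m with
  | zero => norm_num
  | succ m ih =>
    have : 2 ^ (m + 1 + 4) = 2 * 2 ^ (m + 4) := by rw [← pow_succ']
    omega

theorem log_small {n : ℕ} (hn : 16 ≤ n) : 2 * Nat.log 2 n + 4 ≤ n := by
  have h1 : 4 ≤ Nat.log 2 n := by
    have : Nat.log 2 16 ≤ Nat.log 2 n := Nat.log_mono_right hn
    have h16 : Nat.log 2 16 = 4 := by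
      rw [show (16 : ℕ) = 2 ^ 4 by norm_num, Nat.log_pow (by norm_num)]
    omega
  obtain ⟨m, hm⟩ : ∃ m, Nat.log 2 n = m + 4 := ⟨Nat.log 2 n - 4, by omega⟩
  have h2 : 2 ^ Nat.log 2 n ≤ n := Nat.pow_log_le_self 2 (by omega)
  have := two_mul_add_le_pow m
  rw [hm] at h2 ⊢
  omega

theorem g_le (k C : ℕ) : C * (2 * (C ^ k + k) + C + 4) ≤ (2 * k + 7) * C ^ (k + 2) := by
  rcases Nat.eq_zero_or_pos C with rfl | hC
  · simp
  · have h1 : C * C ^ k ≤ C ^ (k + 2) := by
      rw [← pow_succ']; exact Nat.pow_le_pow_right hC (by omega)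
    have h2 : C ≤ C ^ (k + 2) := Nat.le_self_pow (by omega) C
    have h3 : C * C ≤ C ^ (k + 2) := by
      rw [← pow_two]; exact Nat.pow_le_pow_right hC (by omega)
    have h4 : k * C ≤ k * C ^ (k + 2) := Nat.mul_le_mul_left _ h2
    nlinarith

theorem card_Solv_le (T : Problem) {n C : ℕ} (hn : 16 ≤ n)
    (hC : (8 * T.k + 28) * C ^ (T.k + 2) < n) :
    (Solv T n C).ncard ≤ 2 ^ 2 ^ (n - 1) := by
  refine (card_Solv T n C).trans ?_
  set e := C * (2 * (C ^ T.k + T.k) + C + 4) with he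
  have h1 : 4 * e < n := by
    have := g_le T.k C
    nlinarith
  have h2 : 2 * n + 4 ≤ 2 ^ n := by
    have h := log_small hn
    obtain ⟨m, rfl⟩ : ∃ m, n = m + 4 := ⟨n - 4, by omega⟩
    have := two_mul_add_le_pow m
    omega
  have h3 : n * 2 ^ e ≤ 2 ^ (n - 1) := by
    have h4 : n < 2 ^ (Nat.log 2 n + 1) := Nat.lt_pow_succ_log_self (by norm_num) n
    have h5 := log_small hn
    calc n * 2 ^ e ≤ 2 ^ (Nat.log 2 n + 1) * 2 ^ e := Nat.mul_le_mul_right _ h4.le
      _ = 2 ^ (Nat.log 2 n + 1 + e) := by rw [← pow_add]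
      _ ≤ 2 ^ (n - 1) := Nat.pow_le_pow_right (by norm_num) (by omega)
  calc (2 * n + 4) ^ 2 ^ e ≤ (2 ^ n) ^ 2 ^ e := Nat.pow_le_pow_left h2 _
    _ = 2 ^ (n * 2 ^ e) := by rw [← pow_mul]
    _ ≤ 2 ^ 2 ^ (n - 1) := Nat.pow_le_pow_right (by norm_num) h3

/-- For every sequence of problems and every large `n` some function is hard for the first `n`
problems of the sequence. -/
theorem exists_hard (T : ℕ → Problem) (n : ℕ) (hn : 16 ≤ n) :
    ∃ F : Str n → Bool, ∀ j < n,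
      ∀ t : Reduction (T j) (Str n) (Str n) (Fin (2 * n + 2)),
        t.Solves (fun x y z => enc n z ∈ sideA F x ∧ enc n z ∈ sideB F y) →
        n ≤ (8 * (T j).k + 28) * t.cost ^ ((T j).k + 2) := by
  by_contra hcon
  push Not at hcon
  let bad : ℕ × ℕ → Set (Str n → Bool) := fun p =>
    if (8 * (T p.1).k + 28) * p.2 ^ ((T p.1).k + 2) < n then Solv (T p.1) n p.2 else ∅
  have hbad : ∀ p, (bad p).ncard ≤ 2 ^ 2 ^ (n - 1) := by
    intro p
    simp only [bad]
    split_ifs with h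
    · exact card_Solv_le (T p.1) hn h
    · simp
  have hcov : (Set.univ : Set (Str n → Bool)) ⊆
      ⋃ p ∈ Finset.range n ×ˢ Finset.range n, bad p := by
    intro F _
    obtain ⟨j, hj, t, ht, hc⟩ := hcon F
    have h1 : t.cost ≤ t.cost ^ ((T j).k + 2) := Nat.le_self_pow (by omega) _
    have h2 : t.cost < n := by nlinarith
    simp only [Set.mem_iUnion]
    refine ⟨(j, t.cost), ?_, ?_⟩
    · simp [hj, h2]
    · simp only [bad]
      rw [if_pos hc]
      exact ⟨t, le_refl _, ht⟩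
  have h1 : (Set.univ : Set (Str n → Bool)).ncard ≤ n * n * 2 ^ 2 ^ (n - 1) := by
    refine (Set.ncard_le_ncard hcov (Set.toFinite _)).trans ?_
    have h2 : (⋃ p ∈ Finset.range n ×ˢ Finset.range n, bad p).ncard ≤
        ∑ p ∈ Finset.range n ×ˢ Finset.range n, (bad p).ncard := by
      have := Finset.set_ncard_biUnion_le (Finset.range n ×ˢ Finset.range n) bad
      exact this
    refine h2.trans ?_
    refine (Finset.sum_le_sum (fun p _ => hbad p)).trans ?_
    simp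
  rw [Set.ncard_univ, Nat.card_eq_fintype_card] at h1
  simp only [Str, Fintype.card_fun, Fintype.card_bool, Fintype.card_fin] at h1
  have h2 : n * n < 2 ^ 2 ^ (n - 1) := by
    have h3 : n < 2 ^ n := Nat.lt_two_pow_self
    have h4 : n * n < 2 ^ (2 * n) := by
      rw [two_mul, pow_add]; nlinarith
    refine h4.trans_le (Nat.pow_le_pow_right (by norm_num) ?_)
    obtain ⟨m, rfl⟩ : ∃ m, n = m + 5 := ⟨n - 5, by omega⟩
    have := two_mul_add_le_pow m
    simp only [Nat.add_succ_sub_one]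
    omega
  have h5 : (2 : ℕ) ^ 2 ^ n = 2 ^ 2 ^ (n - 1) * 2 ^ 2 ^ (n - 1) := by
    rw [← pow_add]
    congr 1
    obtain ⟨m, rfl⟩ : ∃ m, n = m + 1 := ⟨n - 1, by omega⟩
    simp only [Nat.add_sub_cancel]
    rw [pow_succ]; ring
  rw [h5] at h1
  have h6 : 0 < (2 : ℕ) ^ 2 ^ (n - 1) := by positivity
  have := Nat.le_of_mul_le_mul_right h1 h6
  omega

/-- polynomials in `log n` are eventually smaller than `n` -/
theorem exists_large (a d k' : ℕ) (N : ℕ) :
    ∃ n, N ≤ n ∧ a * (pl k' n) ^ d < n := by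
  have h := tendsto_pow_const_div_const_pow_of_one_lt (k' * d) (r := (2 : ℝ)) (by norm_num)
  set c : ℝ := (a : ℝ) * ((k' : ℝ) + 1) ^ d + 1 with hc
  have hc0 : 0 < c := by positivity
  have h1 := (h.eventually (gt_mem_nhds (show (0 : ℝ) < 1 / c by positivity))).and
    (Filter.eventually_ge_atTop (N + 1))
  obtain ⟨m, hm, hmN⟩ := h1.exists
  refine ⟨2 ^ m, ?_, ?_⟩
  · have : m < 2 ^ m := Nat.lt_two_pow_self
    omega
  · have hlog : Nat.log 2 (2 ^ m) = m := Nat.log_pow (by norm_num) m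
    have hpl : pl k' (2 ^ m) ≤ (k' + 1) * m ^ k' := by
      unfold pl
      rw [hlog]
      have : 1 ≤ m ^ k' := Nat.one_le_pow _ _ (by omega)
      nlinarith
    have h2 : a * (pl k' (2 ^ m)) ^ d ≤ a * (k' + 1) ^ d * m ^ (k' * d) := by
      rw [mul_assoc, pow_mul, ← mul_pow]
      exact Nat.mul_le_mul_left _ (Nat.pow_le_pow_left hpl d)
    have h3 : (a : ℝ) * ((k' : ℝ) + 1) ^ d * (m : ℝ) ^ (k' * d) < 2 ^ m := by
      have hp : (0 : ℝ) < 2 ^ m := by positivity
      rw [div_lt_div_iff₀ hp hc0] at hm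
      have hq : (0 : ℝ) ≤ (m : ℝ) ^ (k' * d) := by positivity
      have : (m : ℝ) ^ (k' * d) * c < 2 ^ m := by linarith
      rw [hc] at this
      nlinarith
    have h4 : a * (k' + 1) ^ d * m ^ (k' * d) < 2 ^ m := by exact_mod_cast h3
    omega

/-- TFNP in communication complexity has no complete problem. -/
theorem main :
    (∀ T : ℕ → Problem, ∃ S : Problem,
      (∀ n, S.sol n = 2 * n + 2) ∧
      (∀ n z, ∃ π : Protocol (Str n) (Str n) Bool, π.cost ≤ 2 ∧
        ∀ x y, π.run x y = true ↔ S.rel n x y z) ∧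
      ∀ j n, j < n → 16 ≤ n → ∀ t : Reduction (T j) (Str n) (Str n) (Fin (S.sol n)),
        t.Solves (S.rel n) → n ≤ (8 * (T j).k + 28) * t.cost ^ ((T j).k + 2)) ∧
    ¬ ∃ T : ℕ → Problem, ∀ S : Problem, ∃ j, TuringReduces S (T j) := by
  have h1 : ∀ T : ℕ → Problem, ∃ S : Problem,
      (∀ n, S.sol n = 2 * n + 2) ∧
      (∀ n z, ∃ π : Protocol (Str n) (Str n) Bool, π.cost ≤ 2 ∧
        ∀ x y, π.run x y = true ↔ S.rel n x y z) ∧
      ∀ j n, j < n → 16 ≤ n → ∀ t : Reduction (T j) (Str n) (Str n) (Fin (S.sol n)),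
        t.Solves (S.rel n) → n ≤ (8 * (T j).k + 28) * t.cost ^ ((T j).k + 2) := by
    intro T
    have key : ∀ n, ∃ F : Str n → Bool, 16 ≤ n → ∀ j < n,
        ∀ t : Reduction (T j) (Str n) (Str n) (Fin (2 * n + 2)),
          t.Solves (fun x y z => enc n z ∈ sideA F x ∧ enc n z ∈ sideB F y) →
          n ≤ (8 * (T j).k + 28) * t.cost ^ ((T j).k + 2) := by
      intro n
      by_cases hn : 16 ≤ n
      · obtain ⟨F, hF⟩ := exists_hard T n hn
        exact ⟨F, fun _ => hF⟩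
      · exact ⟨fun _ => false, fun h => absurd h hn⟩
    choose F hF using key
    refine ⟨twist F, fun n => rfl, fun n z => ?_, fun j n hj hn t ht => ?_⟩
    · exact ⟨checkP (F n) (enc n z), checkP_cost _ _, fun x y => checkP_run _ _ _ _⟩
    · exact hF n hn j hj t ht
  refine ⟨h1, ?_⟩
  rintro ⟨T, hT⟩
  obtain ⟨S, -, -, hS⟩ := h1 T
  obtain ⟨j, k', hk'⟩ := hT S
  obtain ⟨n, hnN, hn⟩ := exists_large (8 * (T j).k + 28) ((T j).k + 2) k' (j + 16)
  obtain ⟨t, ht, hc⟩ := hk' n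
  have h2 := hS j n (by omega) (by omega) t ht
  have h3 : (8 * (T j).k + 28) * t.cost ^ ((T j).k + 2) ≤
      (8 * (T j).k + 28) * (pl k' n) ^ ((T j).k + 2) :=
    Nat.mul_le_mul_left _ (Nat.pow_le_pow_left hc _)
  omega

end Pool.Agent.H88.CC
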