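import Pool.Agent.H88.CC.Basic

namespace Pool.Agent.H88.CC

open Classical

/-! ### Transcripts -/

namespace Protocol

variable {X Y : Type}

/-- Alice's part of the event that the transcript is `τ` and the protocol accepts. -/
def consA : Protocol X Y Bool → ℕ → X → Prop
  | leaf o, _, _ => o = true
  | alice f next, τ, x => f x = τ.testBit 0 ∧ (next (τ.testBit 0)).consA (τ / 2) x
  | bob _ next, τ, x => (next (τ.testBit 0)).consA (τ / 2) x

/-- Bob's part. -/
def consB : Protocol X Y Bool → ℕ → Y → Prop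
  | leaf o, _, _ => o = true
  | alice _ next, τ, y => (next (τ.testBit 0)).consB (τ / 2) y
  | bob f next, τ, y => f y = τ.testBit 0 ∧ (next (τ.testBit 0)).consB (τ / 2) y

theorem run_of_cons (π : Protocol X Y Bool) (x : X) (y : Y) :
    ∀ τ, π.consA τ x → π.consB τ y → π.run x y = true := by
  induction π with
  | leaf o => intro τ h _; exact h
  | alice f next ih =>
    intro τ hA hB
    have h1 : f x = τ.testBit 0 := hA.1
    show (next (f x)).run x y = true
    rw [h1]
    exact ih _ _ hA.2 hB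
  | bob f next ih =>
    intro τ hA hB
    have h1 : f y = τ.testBit 0 := hB.1
    show (next (f y)).run x y = true
    rw [h1]
    exact ih _ _ hA hB.2

theorem testBit_two_mul_add (b : Bool) (τ : ℕ) : (2 * τ + b.toNat).testBit 0 = b := by
  cases b <;> simp [Nat.testBit_zero]

theorem two_mul_add_div (b : Bool) (τ : ℕ) : (2 * τ + b.toNat) / 2 = τ := by
  cases b
  · simp
  · simp only [Bool.toNat_true]; omega

theorem exists_cons (π : Protocol X Y Bool) (x : X) (y : Y) :
    ∀ v, π.cost ≤ v → π.run x y = true → ∃ τ, τ < 2 ^ v ∧ π.consA τ x ∧ π.consB τ y := by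
  induction π with
  | leaf o => intro v _ h; exact ⟨0, by positivity, h, h⟩
  | alice f next ih =>
    intro v hv h
    have hc : (next (f x)).cost + 1 ≤ v := by
      have : (next (f x)).cost ≤ max (next false).cost (next true).cost := by
        cases f x
        · exact le_max_left _ _
        · exact le_max_right _ _
      simp only [cost] at hv
      omega
    obtain ⟨w, rfl⟩ : ∃ w, v = w + 1 := ⟨v - 1, by omega⟩
    obtain ⟨τ, hτ, hA, hB⟩ := ih (f x) w (by omega) h
    refine ⟨2 * τ + (f x).toNat, ?_, ?_, ?_⟩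
    · have : (f x).toNat ≤ 1 := Bool.toNat_le _
      rw [pow_succ]; omega
    · refine ⟨(testBit_two_mul_add _ _).symm, ?_⟩
      rw [testBit_two_mul_add, two_mul_add_div]; exact hA
    · show (next _).consB _ y
      rw [testBit_two_mul_add, two_mul_add_div]; exact hB
  | bob f next ih =>
    intro v hv h
    have hc : (next (f y)).cost + 1 ≤ v := by
      have : (next (f y)).cost ≤ max (next false).cost (next true).cost := by
        cases f y
        · exact le_max_left _ _
        · exact le_max_right _ _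
      simp only [cost] at hv
      omega
    obtain ⟨w, rfl⟩ : ∃ w, v = w + 1 := ⟨v - 1, by omega⟩
    obtain ⟨τ, hτ, hA, hB⟩ := ih (f y) w (by omega) h
    refine ⟨2 * τ + (f y).toNat, ?_, ?_, ?_⟩
    · have : (f y).toNat ≤ 1 := Bool.toNat_le _
      rw [pow_succ]; omega
    · show (next _).consA _ x
      rw [testBit_two_mul_add, two_mul_add_div]; exact hA
    · refine ⟨(testBit_two_mul_add _ _).symm, ?_⟩
      rw [testBit_two_mul_add, two_mul_add_div]; exact hB

end Protocol

/-! ### The problems `twist F` -/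

/-- Labels: a coordinate and Alice's bit there, or a bit. -/
abbrev K (n : ℕ) := (Fin n × Bool) ⊕ Bool

theorem card_K (n : ℕ) : Fintype.card (K n) = 2 * n + 2 := by
  simp [K, Fintype.card_sum, Fintype.card_prod]; ring

/-- Enumeration of the labels. -/
noncomputable def enc (n : ℕ) : Fin (2 * n + 2) ≃ K n :=
  (Fintype.equivFinOfCardEq (card_K n)).symm

/-- Labels compatible with Alice's input. -/
def sideA {n : ℕ} (F : Str n → Bool) (x : Str n) : Set (K n) :=
  {z | match z with
    | Sum.inl (i, b) => x i = b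
    | Sum.inr e => F x = e}

/-- Labels compatible with Bob's input. -/
def sideB {n : ℕ} (F : Str n → Bool) (y : Str n) : Set (K n) :=
  {z | match z with
    | Sum.inl (i, b) => y i ≠ b
    | Sum.inr e => F y = e}

theorem side_total {n : ℕ} (F : Str n → Bool) (x y : Str n) :
    ∃ z : K n, z ∈ sideA F x ∧ z ∈ sideB F y := by
  by_cases h : x = y
  · subst h
    exact ⟨Sum.inr (F x), rfl, rfl⟩
  · obtain ⟨i, hi⟩ := Function.ne_iff.1 h
    exact ⟨Sum.inl (i, x i), rfl, fun h' => hi h'.symm⟩

theorem side_disj {n : ℕ} (F G : Str n → Bool) (x : Str n) (z : K n)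
    (h1 : z ∈ sideA F x) (h2 : z ∈ sideB G x) : F x = G x := by
  rcases z with ⟨i, b⟩ | e
  · exact absurd h1 h2
  · have a1 : F x = e := h1
    have a2 : G x = e := h2
    rw [a1, a2]

/-- The protocol verifying one label. -/
noncomputable def checkP {n : ℕ} (F : Str n → Bool) (z : K n) : Protocol (Str n) (Str n) Bool :=
  Protocol.alice (fun x => decide (z ∈ sideA F x)) fun b =>
    Protocol.bob (fun y => decide (z ∈ sideB F y)) fun c => Protocol.leaf (b && c)

theorem checkP_run {n : ℕ} (F : Str n → Bool) (z : K n) (x y : Str n) :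
    (checkP F z).run x y = true ↔ z ∈ sideA F x ∧ z ∈ sideB F y := by
  simp [checkP, Protocol.run]

theorem checkP_cost {n : ℕ} (F : Str n → Bool) (z : K n) : (checkP F z).cost ≤ 2 := by
  simp [checkP, Protocol.cost]

/-- The problem: find `i` with `x i ≠ y i`, or a bit `e` with `F x = e = F y`. -/
noncomputable def twist (F : ∀ n, Str n → Bool) : Problem where
  k := 2
  sol n := 2 * n + 2
  rel n x y z := enc n z ∈ sideA (F n) x ∧ enc n z ∈ sideB (F n) y
  total n x y := by
    obtain ⟨z, hz⟩ := side_total (F n) x y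
    exact ⟨(enc n).symm z, by simpa using hz⟩
  sol_le n := by
    have h1 : n < 2 ^ (Nat.log 2 n + 1) := Nat.lt_pow_succ_log_self (by norm_num) n
    have h2 : Nat.log 2 n ≤ (Nat.log 2 n) ^ 2 := Nat.le_self_pow (by norm_num) _
    calc 2 * n + 2 ≤ 2 ^ (Nat.log 2 n + 2) := by
          rw [pow_succ] at h1
          rw [pow_add]; omega
      _ ≤ 2 ^ pl 2 n := Nat.pow_le_pow_right (by norm_num) (by unfold pl; omega)
  verifiable n z := by
    refine ⟨checkP (F n) (enc n z), ?_, fun x y => checkP_run _ _ _ _⟩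
    exact (checkP_cost _ _).trans (by unfold pl; omega)

/-! ### Families captured by reductions of bounded cost -/

/-- Pairs of families of label sets. -/
abbrev Fam (n : ℕ) := Set (Set (K n)) × Set (Set (K n))

/-- The verification protocol of `T`. -/
noncomputable def ver (T : Problem) (m : ℕ) (z : Fin (T.sol m)) : Protocol (Str m) (Str m) Bool :=
  (T.verifiable m z).choose

theorem ver_cost (T : Problem) (m : ℕ) (z : Fin (T.sol m)) : (ver T m z).cost ≤ pl T.k m :=
  (T.verifiable m z).choose_spec.1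

theorem ver_run (T : Problem) (m : ℕ) (z : Fin (T.sol m)) (x y : Str m) :
    (ver T m z).run x y = true ↔ T.rel m x y z :=
  (T.verifiable m z).choose_spec.2 x y

/-- A solution together with a transcript of its verification. -/
abbrev Lab (T : Problem) (m : ℕ) := Fin (T.sol m) × Fin (2 ^ pl T.k m)

/-- Leaves. -/
noncomputable def base (n : ℕ) : Finset (Fam n) :=
  Finset.univ.image (fun z : K n => (({a | z ∈ a}, {b | z ∈ b}) : Fam n)) ∪
    {((Set.univ, ∅) : Fam n), ((∅, Set.univ) : Fam n)}

/-- Combination at a node of Alice. -/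
def cA {n : ℕ} (p : Fam n × Fam n) : Fam n := (p.1.1 ∪ p.2.1, p.1.2 ∩ p.2.2)

/-- Combination at a node of Bob. -/
def cB {n : ℕ} (p : Fam n × Fam n) : Fam n := (p.1.1 ∩ p.2.1, p.1.2 ∪ p.2.2)

/-- Combination at a query. -/
def cQ (T : Problem) (n m : ℕ) (φ : Lab T m → Fam n) : Fam n :=
  ({a | ∃ u : Str m, ∀ w : Lab T m, (ver T m w.1).consA w.2 u → a ∈ (φ w).1},
   {b | ∃ v : Str m, ∀ w : Lab T m, (ver T m w.1).consB w.2 v → b ∈ (φ w).2})

/-- Pairs of families captured with cost at most `C`. -/
noncomputable def Cap (T : Problem) (n : ℕ) : ℕ → Finset (Fam n)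
  | 0 => base n
  | C + 1 => base n ∪ ((Cap T n C ×ˢ Cap T n C).image cA ∪ ((Cap T n C ×ˢ Cap T n C).image cB ∪
      (Finset.range (2 ^ (C + 1))).biUnion fun m =>
        (Fintype.piFinset (fun _ : Lab T m => Cap T n C)).image (cQ T n m)))

theorem base_sub (T : Problem) (n C : ℕ) : base n ⊆ Cap T n C := by
  cases C with
  | zero => exact Finset.Subset.refl _
  | succ C => exact Finset.subset_union_left

theorem base_cross {n : ℕ} {P : Fam n} (hP : P ∈ base n) {a b : Set (K n)} (ha : a ∈ P.1)
    (hb : b ∈ P.2) : (a ∩ b).Nonempty := by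
  simp only [base, Finset.mem_union, Finset.mem_image, Finset.mem_univ, true_and,
    Finset.mem_insert, Finset.mem_singleton] at hP
  rcases hP with ⟨z, rfl⟩ | rfl | rfl
  · exact ⟨z, ha, hb⟩
  · exact absurd hb (Set.notMem_empty _)
  · exact absurd ha (Set.notMem_empty _)

theorem Cap_cross (T : Problem) (n : ℕ) : ∀ C, ∀ P ∈ Cap T n C, ∀ a ∈ P.1, ∀ b ∈ P.2,
    (a ∩ b).Nonempty := by
  intro C
  induction C with
  | zero => intro P hP a ha b hb; exact base_cross hP ha hb
  | succ C ih =>
    intro P hP a ha b hb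
    simp only [Cap, Finset.mem_union, Finset.mem_image, Finset.mem_product,
      Finset.mem_biUnion, Finset.mem_range] at hP
    rcases hP with hP | ⟨⟨P1, P2⟩, ⟨h1, h2⟩, rfl⟩ | ⟨⟨P1, P2⟩, ⟨h1, h2⟩, rfl⟩ |
      ⟨m, hm, φ, hφ, rfl⟩
    · exact base_cross hP ha hb
    · rcases (show a ∈ P1.1 ∨ a ∈ P2.1 from ha) with ha | ha
      · exact ih P1 h1 a ha b hb.1
      · exact ih P2 h2 a ha b hb.2
    · rcases (show b ∈ P1.2 ∨ b ∈ P2.2 from hb) with hb | hb
      · exact ih P1 h1 a ha.1 b hb
      · exact ih P2 h2 a ha.2 b hb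
    · obtain ⟨u, hu⟩ : ∃ u : Str m, ∀ w : Lab T m,
          (ver T m w.1).consA w.2 u → a ∈ (φ w).1 := ha
      obtain ⟨v, hv⟩ : ∃ v : Str m, ∀ w : Lab T m,
          (ver T m w.1).consB w.2 v → b ∈ (φ w).2 := hb
      obtain ⟨z, hz⟩ := T.total m u v
      obtain ⟨τ, hτ, hA, hB⟩ := Protocol.exists_cons (ver T m z) u v _ (ver_cost T m z)
        ((ver_run T m z u v).2 hz)
      have := Fintype.mem_piFinset.1 hφ (z, ⟨τ, hτ⟩)
      exact ih _ this a (hu (z, ⟨τ, hτ⟩) hA) b (hv (z, ⟨τ, hτ⟩) hB)

/-- Capture lemma. -/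
theorem capture (T : Problem) (n : ℕ) {X Y O : Type} (lab : O → K n) (a : X → Set (K n))
    (b : Y → Set (K n)) (t : Reduction T X Y O) :
    ∀ (C : ℕ), t.cost ≤ C → ∀ (X' : Set X) (Y' : Set Y),
      (∀ x ∈ X', ∀ y ∈ Y', ∀ o, t.Out x y o → lab o ∈ a x ∧ lab o ∈ b y) →
      ∃ P ∈ Cap T n C, (∀ x ∈ X', a x ∈ P.1) ∧ (∀ y ∈ Y', b y ∈ P.2) := by
  induction t with
  | leaf o =>
    intro C _ X' Y' h
    by_cases hY : Y'.Nonempty
    · by_cases hX : X'.Nonempty
      · obtain ⟨x0, hx0⟩ := hX
        obtain ⟨y0, hy0⟩ := hY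
        refine ⟨({a | lab o ∈ a}, {b | lab o ∈ b}), base_sub T n C ?_, ?_, ?_⟩
        · simp [base]
        · intro x hx; exact (h x hx y0 hy0 o rfl).1
        · intro y hy; exact (h x0 hx0 y hy o rfl).2
      · refine ⟨(∅, Set.univ), base_sub T n C (by simp [base]), ?_, fun y _ => trivial⟩
        intro x hx; exact absurd ⟨x, hx⟩ hX
    · refine ⟨(Set.univ, ∅), base_sub T n C (by simp [base]), fun x _ => trivial, ?_⟩
      intro y hy; exact absurd ⟨y, hy⟩ hY
  | alice f next ih =>
    intro C hC X' Y' h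
    simp only [Reduction.cost] at hC
    obtain ⟨C, rfl⟩ : ∃ w, C = w + 1 := ⟨C - 1, by omega⟩
    have hb : ∀ e, (next e).cost ≤ C := by
      intro e
      have : (next e).cost ≤ max (next false).cost (next true).cost := by
        cases e
        · exact le_max_left _ _
        · exact le_max_right _ _
      omega
    have key : ∀ e, ∃ P ∈ Cap T n C, (∀ x ∈ {x ∈ X' | f x = e}, a x ∈ P.1) ∧
        (∀ y ∈ Y', b y ∈ P.2) := by
      intro e
      apply ih e C (hb e)
      rintro x ⟨hx, hfx⟩ y hy o ho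
      apply h x hx y hy o
      show (next (f x)).Out x y o
      rw [hfx]; exact ho
    obtain ⟨P0, hP0, hA0, hB0⟩ := key false
    obtain ⟨P1, hP1, hA1, hB1⟩ := key true
    refine ⟨cA (P0, P1), ?_, ?_, fun y hy => ⟨hB0 y hy, hB1 y hy⟩⟩
    · simp only [Cap, Finset.mem_union, Finset.mem_image, Finset.mem_product]
      right; left
      exact ⟨(P0, P1), ⟨hP0, hP1⟩, rfl⟩
    · intro x hx
      cases hf : f x with
      | false => exact Or.inl (hA0 x ⟨hx, hf⟩)
      | true => exact Or.inr (hA1 x ⟨hx, hf⟩)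
  | bob f next ih =>
    intro C hC X' Y' h
    simp only [Reduction.cost] at hC
    obtain ⟨C, rfl⟩ : ∃ w, C = w + 1 := ⟨C - 1, by omega⟩
    have hb : ∀ e, (next e).cost ≤ C := by
      intro e
      have : (next e).cost ≤ max (next false).cost (next true).cost := by
        cases e
        · exact le_max_left _ _
        · exact le_max_right _ _
      omega
    have key : ∀ e, ∃ P ∈ Cap T n C, (∀ x ∈ X', a x ∈ P.1) ∧
        (∀ y ∈ {y ∈ Y' | f y = e}, b y ∈ P.2) := by
      intro e
      apply ih e C (hb e)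
      rintro x hx y ⟨hy, hfy⟩ o ho
      apply h x hx y hy o
      show (next (f y)).Out x y o
      rw [hfy]; exact ho
    obtain ⟨P0, hP0, hA0, hB0⟩ := key false
    obtain ⟨P1, hP1, hA1, hB1⟩ := key true
    refine ⟨cB (P0, P1), ?_, fun x hx => ⟨hA0 x hx, hA1 x hx⟩, ?_⟩
    · simp only [Cap, Finset.mem_union, Finset.mem_image, Finset.mem_product]
      right; right; left
      exact ⟨(P0, P1), ⟨hP0, hP1⟩, rfl⟩
    · intro y hy
      cases hf : f y with
      | false => exact Or.inl (hB0 y ⟨hy, hf⟩)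
      | true => exact Or.inr (hB1 y ⟨hy, hf⟩)
  | query m f g next ih =>
    intro C hC X' Y' h
    simp only [Reduction.cost] at hC
    obtain ⟨C, rfl⟩ : ∃ w, C = w + 1 := ⟨C - 1, by omega⟩
    have hb : ∀ z, (next z).cost ≤ C := by
      intro z
      have : (next z).cost ≤ Finset.univ.sup (fun z => (next z).cost) :=
        Finset.le_sup (f := fun z => (next z).cost) (Finset.mem_univ z)
      omega
    have hm : m < 2 ^ (C + 1) := Nat.lt_pow_of_log_lt (by norm_num) (by omega)
    have key : ∀ w : Lab T m, ∃ P ∈ Cap T n C,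
        (∀ x ∈ {x ∈ X' | (ver T m w.1).consA w.2 (f x)}, a x ∈ P.1) ∧
        (∀ y ∈ {y ∈ Y' | (ver T m w.1).consB w.2 (g y)}, b y ∈ P.2) := by
      intro w
      apply ih w.1 C (hb w.1)
      rintro x ⟨hx, hfx⟩ y ⟨hy, hgy⟩ o ho
      apply h x hx y hy o
      refine ⟨w.1, (ver_run T m w.1 _ _).1 ?_, ho⟩
      exact Protocol.run_of_cons _ _ _ _ hfx hgy
    choose φ hφ hA hB using key
    refine ⟨cQ T n m φ, ?_, ?_, ?_⟩
    · simp only [Cap, Finset.mem_union, Finset.mem_biUnion, Finset.mem_range]
      right; right; right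
      exact ⟨m, hm, Finset.mem_image_of_mem _ (Fintype.mem_piFinset.2 hφ)⟩
    · intro x hx
      exact ⟨f x, fun w hw => hA w x ⟨hx, hw⟩⟩
    · intro y hy
      exact ⟨g y, fun w hw => hB w y ⟨hy, hw⟩⟩

/-! ### Counting -/

theorem card_base (n : ℕ) : (base n).card ≤ 2 * n + 4 := by
  unfold base
  refine (Finset.card_union_le _ _).trans ?_
  have h1 : (Finset.univ.image (fun z : K n => (({a | z ∈ a}, {b | z ∈ b}) : Fam n))).card
      ≤ 2 * n + 2 := by
    refine Finset.card_image_le.trans ?_
    rw [Finset.card_univ, card_K]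
  have h2 : ({((Set.univ, ∅) : Fam n), ((∅, Set.univ) : Fam n)} : Finset (Fam n)).card ≤ 2 :=
    Finset.card_le_two
  omega

theorem card_Lab (T : Problem) (m : ℕ) : Fintype.card (Lab T m) ≤ 2 ^ (2 * pl T.k m) := by
  simp only [Lab, Fintype.card_prod, Fintype.card_fin]
  rw [two_mul, pow_add]
  exact Nat.mul_le_mul_right _ (T.sol_le m)

/-- exponent growth per level -/
def wd (k C : ℕ) : ℕ := 2 ^ (2 * (C ^ k + k))

theorem two_le_wd (k C : ℕ) : 2 ≤ wd k C := by
  unfold wd
  have : 1 ≤ C ^ k + k := by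
    rcases Nat.eq_zero_or_pos k with rfl | h
    · simp
    · omega
  calc 2 = 2 ^ 1 := rfl
    _ ≤ 2 ^ (2 * (C ^ k + k)) := Nat.pow_le_pow_right (by norm_num) (by omega)

/-- exponent of the bound for `Cap` -/
def ex (k : ℕ) : ℕ → ℕ
  | 0 => 1
  | C + 1 => wd k C * ex k C + C + 3

theorem one_le_ex (k C : ℕ) : 1 ≤ ex k C := by
  cases C with
  | zero => exact le_refl _
  | succ C => unfold ex; omega

theorem card_Cap (T : Problem) (n : ℕ) : ∀ C, (Cap T n C).card ≤ (2 * n + 4) ^ ex T.k C := by
  intro C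
  induction C with
  | zero => simpa [ex, Cap] using card_base n
  | succ C ih =>
    set b := 2 * n + 4 with hb
    set N := b ^ ex T.k C with hN
    have hb2 : 2 ≤ b := by omega
    have hN1 : 1 ≤ N := Nat.one_le_pow _ _ (by omega)
    have hbN : b ≤ N := by
      calc b = b ^ 1 := (pow_one b).symm
        _ ≤ b ^ ex T.k C := Nat.pow_le_pow_right (by omega) (one_le_ex _ _)
    have hw := two_le_wd T.k C
    set w := wd T.k C with hwdef
    have hNw : N ≤ N ^ w := Nat.le_self_pow (by omega) N
    have hN2 : N * N ≤ N ^ w := by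
      rw [← pow_two]; exact Nat.pow_le_pow_right hN1 hw
    have h1 : (base n).card ≤ N ^ w := (card_base n).trans (hbN.trans hNw)
    have h2 : ((Cap T n C ×ˢ Cap T n C).image cA).card ≤ N ^ w := by
      refine Finset.card_image_le.trans ?_
      rw [Finset.card_product]
      exact (Nat.mul_le_mul ih ih).trans hN2
    have h3 : ((Cap T n C ×ˢ Cap T n C).image cB).card ≤ N ^ w := by
      refine Finset.card_image_le.trans ?_
      rw [Finset.card_product]
      exact (Nat.mul_le_mul ih ih).trans hN2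
    have h4 : ((Finset.range (2 ^ (C + 1))).biUnion fun m =>
        (Fintype.piFinset (fun _ : Lab T m => Cap T n C)).image (cQ T n m)).card
        ≤ 2 ^ (C + 1) * N ^ w := by
      refine Finset.card_biUnion_le.trans ?_
      calc _ ≤ ∑ _m ∈ Finset.range (2 ^ (C + 1)), N ^ w := by
            apply Finset.sum_le_sum
            intro m hm
            refine Finset.card_image_le.trans ?_
            rw [Fintype.card_piFinset, Finset.prod_const, Finset.card_univ]
            have hlog : Nat.log 2 m ≤ C := by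
              have := Finset.mem_range.1 hm
              rcases Nat.eq_zero_or_pos m with rfl | hm0
              · simp
              · have := (Nat.log_lt_iff_lt_pow (by norm_num) (by omega)).2 this
                omega
            have hl : Fintype.card (Lab T m) ≤ w := by
              refine (card_Lab T m).trans ?_
              apply Nat.pow_le_pow_right (by norm_num)
              unfold pl
              have := Nat.pow_le_pow_left hlog T.k
              omega
            calc (Cap T n C).card ^ Fintype.card (Lab T m)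
                ≤ N ^ Fintype.card (Lab T m) := Nat.pow_le_pow_left ih _
              _ ≤ N ^ w := Nat.pow_le_pow_right hN1 hl
        _ = 2 ^ (C + 1) * N ^ w := by simp
    have h5 : (Cap T n (C + 1)).card ≤ N ^ w + (N ^ w + (N ^ w + 2 ^ (C + 1) * N ^ w)) := by
      unfold Cap
      refine (Finset.card_union_le _ _).trans (Nat.add_le_add h1 ?_)
      refine (Finset.card_union_le _ _).trans (Nat.add_le_add h2 ?_)
      exact (Finset.card_union_le _ _).trans (Nat.add_le_add h3 h4)
    refine h5.trans ?_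
    have h6 : N ^ w + (N ^ w + (N ^ w + 2 ^ (C + 1) * N ^ w)) = (3 + 2 ^ (C + 1)) * N ^ w := by
      ring
    rw [h6]
    have h7 : 3 + 2 ^ (C + 1) ≤ b ^ (C + 3) := by
      calc 3 + 2 ^ (C + 1) ≤ 2 ^ (C + 3) := by
            have : 1 ≤ 2 ^ C := Nat.one_le_two_pow
            rw [pow_add, pow_add]; omega
        _ ≤ b ^ (C + 3) := Nat.pow_le_pow_left hb2 _
    calc (3 + 2 ^ (C + 1)) * N ^ w ≤ b ^ (C + 3) * N ^ w := Nat.mul_le_mul_right _ h7
      _ = b ^ ex T.k (C + 1) := by
          rw [hN, ← pow_mul, ← pow_add]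
          congr 1
          rw [ex]; ring

theorem ex_le (k : ℕ) : ∀ C, ex k C ≤ 2 ^ (C * (2 * (C ^ k + k) + C + 4)) := by
  intro C
  induction C with
  | zero => simp [ex]
  | succ C ih =>
    set g := 2 * (C ^ k + k) + C + 4 with hg
    have h1 : ex k (C + 1) ≤ 2 ^ ((C + 1) * g) := by
      unfold ex wd
      have hp : 1 ≤ 2 ^ (2 * (C ^ k + k)) * 2 ^ (C * g) := Nat.one_le_iff_ne_zero.2 (by positivity)
      have hC : C + 4 ≤ 2 ^ (C + 4) := Nat.lt_two_pow_self.le
      calc 2 ^ (2 * (C ^ k + k)) * ex k C + C + 3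
          ≤ 2 ^ (2 * (C ^ k + k)) * 2 ^ (C * g) + C + 3 := by
            have := Nat.mul_le_mul_left (2 ^ (2 * (C ^ k + k))) ih
            omega
        _ ≤ 2 ^ (2 * (C ^ k + k)) * 2 ^ (C * g) * (C + 4) := by nlinarith
        _ ≤ 2 ^ (2 * (C ^ k + k)) * 2 ^ (C * g) * 2 ^ (C + 4) := Nat.mul_le_mul_left _ hC
        _ = 2 ^ ((C + 1) * g) := by
            rw [← pow_add, ← pow_add]
            congr 1
            rw [hg]; ring
    refine h1.trans (Nat.pow_le_pow_right (by norm_num) (Nat.mul_le_mul_left _ ?_))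
    have := Nat.pow_le_pow_left (Nat.le_succ C) k
    simp only [Nat.succ_eq_add_one] at this
    omega

/-! ### Few functions are captured -/

/-- Functions `F` whose twisted problem is solved with cost at most `C`. -/
def Solv (T : Problem) (n C : ℕ) : Set (Str n → Bool) :=
  {F | ∃ t : Reduction T (Str n) (Str n) (Fin (2 * n + 2)), t.cost ≤ C ∧
    t.Solves (fun x y z => enc n z ∈ sideA F x ∧ enc n z ∈ sideB F y)}

theorem card_Solv (T : Problem) (n C : ℕ) :
    (Solv T n C).ncard ≤ (2 * n + 4) ^ 2 ^ (C * (2 * (C ^ T.k + T.k) + C + 4)) := by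
  have key : ∀ F : Str n → Bool, F ∈ Solv T n C → ∃ P ∈ Cap T n C,
      (∀ x, sideA F x ∈ P.1) ∧ (∀ y, sideB F y ∈ P.2) := by
    rintro F ⟨t, hC, ht⟩
    obtain ⟨P, hP, h1, h2⟩ := capture T n (enc n) (sideA F) (sideB F) t C hC Set.univ Set.univ
      (fun x _ y _ o ho => ht x y o ho)
    exact ⟨P, hP, fun x => h1 x trivial, fun y => h2 y trivial⟩
  have h1 : (Solv T n C).ncard ≤ (↑(Cap T n C) : Set (Fam n)).ncard := by
    refine Set.ncard_le_ncard_of_injOn
      (fun F => if h : F ∈ Solv T n C then (key F h).choose else (∅, ∅)) ?_ ?_ (Finset.finite_toSet _)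
    · intro F hF
      simp only [hF, dif_pos]
      exact (key F hF).choose_spec.1
    · intro F hF G hG hFG
      simp only [hF, hG, dif_pos] at hFG
      have a1 := (key F hF).choose_spec
      have a2 := (key G hG).choose_spec
      rw [← hFG] at a2
      funext x
      obtain ⟨z, hz1, hz2⟩ := Cap_cross T n C _ a1.1 _ (a1.2.1 x) _ (a2.2.2 x)
      exact side_disj F G x z hz1 hz2
  refine h1.trans ?_
  rw [Set.ncard_coe_finset]
  refine (card_Cap T n C).trans ?_
  exact Nat.pow_le_pow_right (by omega) (ex_le _ _)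

end Pool.Agent.H88.CC
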